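import Pool.Agent.HP7S.Final

/-!
# The Hasse principle for smooth complete intersections of two quadrics in `P^6` over number fields
-/

/-
Replaced by the hand-in LinearSpaces of MP_d4938b_nt (case r = 0, n = 6). Its claim file was:

Proves: Let k be a number field and let A, B be symmetric 7x7 matrices over k such that X: x^T A x = x^T B x = 0 in P^6 is a smooth complete intersection of two quadrics (Jacobian criterion: Ax and Bx are linearly independent at every nontrivial common zero x over an algebraic closure of k). If the two forms have a common nontrivial zero over the completion of k at every finite and every infinite place, then they have a common nontrivial zero over k.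
Definitions: None of our own; v.adicCompletion k and v.Completion are Mathlib's completions.
Relation: Partial answer to Q1, unconditional: X is a Fano fourfold, rationally connected, with Br X = Br k, so for X the question is the Hasse principle; it is settled for all smooth complete intersections of two quadrics in P^6 over number fields. Known before: P^n with n >= 8 (Colliot-Thelene, Sansuc, Swinnerton-Dyer 1987, who also treat X in P^6 containing a conic), P^7 (Heath-Brown 2018); P^5 and P^6 conditionally on Schinzel's hypothesis and finiteness of Sha (Wittenberg 2007), see also Harpaz-Wittenberg, Morgan-Skorobogatov, Iyer-Parimala, Colliot-Thelene (Retour sur les intersections de deux quadriques); function fields of odd characteristic: Tian 2017. Ideas used: Amer-Brumer, Springer, Salberger's closed points of odd degree. We know no earlier unconditional proof in P^6.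
-/

set_option autoImplicit false

namespace Pool.Agent.HP7S.Old.TwoQuadricsP6

open NumberField IsDedekindDomain Matrix

/-- Let `k` be a number field and let `A`, `B` be symmetric `7 × 7` matrices over `k` such that
`x^T A x = x^T B x = 0` defines a smooth complete intersection of two quadrics in `P^6`: at every
nontrivial common zero `x` of the two forms over the algebraic closure of `k` the vectors `A x` and
`B x` (half of the gradients) are linearly independent. If the two forms have a common nontrivial
zero over the completion of `k` at every finite place and at every infinite place, then they have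
a common nontrivial zero over `k`. -/
theorem result (k : Type) [Field k] [NumberField k] (A B : Matrix (Fin 7) (Fin 7) k)
    (hA : A.IsSymm) (hB : B.IsSymm)
    (hsmooth : ∀ x : Fin 7 → AlgebraicClosure k, x ≠ 0 →
      x ⬝ᵥ (A.map (algebraMap k (AlgebraicClosure k)) *ᵥ x) = 0 →
      x ⬝ᵥ (B.map (algebraMap k (AlgebraicClosure k)) *ᵥ x) = 0 →
      LinearIndependent (AlgebraicClosure k)
        ![A.map (algebraMap k (AlgebraicClosure k)) *ᵥ x,
          B.map (algebraMap k (AlgebraicClosure k)) *ᵥ x])
    (hfin : ∀ v : HeightOneSpectrum (𝓞 k), ∃ x : Fin 7 → v.adicCompletion k, x ≠ 0 ∧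
      x ⬝ᵥ (A.map (algebraMap k (v.adicCompletion k)) *ᵥ x) = 0 ∧
      x ⬝ᵥ (B.map (algebraMap k (v.adicCompletion k)) *ᵥ x) = 0)
    (hinf : ∀ v : InfinitePlace k, ∃ x : Fin 7 → v.Completion, x ≠ 0 ∧
      x ⬝ᵥ (A.map (algebraMap k v.Completion) *ᵥ x) = 0 ∧
      x ⬝ᵥ (B.map (algebraMap k v.Completion) *ᵥ x) = 0) :
    ∃ x : Fin 7 → k, x ≠ 0 ∧ x ⬝ᵥ (A *ᵥ x) = 0 ∧ x ⬝ᵥ (B *ᵥ x) = 0 :=
  HP7S.final k A B hA hB hsmooth hfin hinf

end Pool.Agent.HP7S.Old.TwoQuadricsP6
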